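import Mathlib
import Pool.Agent.H32R3.PV.Main

/-!
# MP_af3a4a_an: Borcea's inequality up to a factor tending to one, for all exponents

For every `n ≥ 2`, all `z_1, …, z_n` and every `k` there is ONE critical point `w` of `∏ (X - z_j)`
such that for every centre `c` and every exponent `p > 0`
`|z_k - w| ≤ C n * n^(max(0, 1/p - 1)) * ((1/n) ∑ |z_j - c|^p)^(1/p)`, `C n → 1`.
The factor `n^(1/p - 1)` is exact for `p < 1`.
-/

open Filter Topology
open Pool.Agent.H32R3.PV

namespace Pool.Agent.Results.MP_af3a4a_an.UpToFactor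

lemma sum_le_rpow {n : ℕ} (a : Fin n → ℝ) (ha : ∀ j, 0 ≤ a j) {p : ℝ} (hp : 0 < p)
    (hp1 : p ≤ 1) (s : Finset (Fin n)) : (∑ j ∈ s, a j) ^ p ≤ ∑ j ∈ s, a j ^ p := by
  classical
  induction s using Finset.induction_on with
  | empty => simp [Real.zero_rpow hp.ne']
  | insert i s hi ih =>
    rw [Finset.sum_insert hi, Finset.sum_insert hi]
    exact (Real.rpow_add_le_add_rpow (ha i) (Finset.sum_nonneg fun j _ => ha j) hp.le hp1).trans
      (by linarith)

lemma mean_le_all {n : ℕ} (hn : 0 < n) (a : Fin n → ℝ) (ha : ∀ j, 0 ≤ a j) {p : ℝ} (hp : 0 < p) :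
    (1 / (n : ℝ)) * ∑ j, a j ≤
      (n : ℝ) ^ (max 0 (1 / p - 1)) * ((1 / (n : ℝ)) * ∑ j, a j ^ p) ^ (1 / p) := by
  have hn0 : (0:ℝ) < (n : ℝ) := by exact_mod_cast hn
  rcases le_total 1 p with h | h
  · have h1 : max 0 (1 / p - 1) = 0 := by
      apply max_eq_left
      have : 1 / p ≤ 1 := by rw [div_le_one hp]; exact h
      linarith
    rw [h1, Real.rpow_zero, one_mul]
    have h := Real.arith_mean_le_rpow_mean (Finset.univ : Finset (Fin n))
      (fun _ => 1 / (n : ℝ)) a (fun _ _ => by positivity)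
      (by
        rw [Finset.sum_const, Finset.card_univ, Fintype.card_fin, nsmul_eq_mul]
        field_simp) (fun j _ => ha j) h
    rwa [← Finset.mul_sum, ← Finset.mul_sum] at h
  · have h1 : max 0 (1 / p - 1) = 1 / p - 1 := by
      apply max_eq_right
      have : 1 ≤ 1 / p := by rw [le_div_iff₀ hp]; linarith
      linarith
    have h0 : 0 ≤ ∑ j, a j := Finset.sum_nonneg fun j _ => ha j
    have h2 := sum_le_rpow a ha hp h Finset.univ
    set S := ∑ j, a j with hS
    set T := ∑ j, a j ^ p with hT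
    have hT0 : 0 ≤ T := le_trans (Real.rpow_nonneg h0 _) h2
    have h3 : S ≤ T ^ (1 / p) := by
      have := Real.rpow_le_rpow (Real.rpow_nonneg h0 _) h2 (by positivity : 0 ≤ 1 / p)
      rwa [← Real.rpow_mul h0, mul_one_div_cancel hp.ne', Real.rpow_one] at this
    rw [h1, one_div_mul_eq_div, one_div_mul_eq_div, Real.div_rpow hT0 hn0.le, Real.rpow_sub hn0,
      Real.rpow_one]
    have hpos : 0 < (n : ℝ) ^ (1 / p) := Real.rpow_pos_of_pos hn0 _
    calc S / (n : ℝ) ≤ T ^ (1 / p) / (n : ℝ) := by gcongr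
      _ = _ := by field_simp

/-- **Main theorem.** -/
theorem result :
    -- (1) the inequality
    (∀ (n : ℕ), 2 ≤ n → ∀ (z : Fin n → ℂ) (k : Fin n), ∃ w : ℂ,
      (Polynomial.derivative (∏ j : Fin n, (Polynomial.X - Polynomial.C (z j)))).IsRoot w ∧
      ∀ (p : ℝ), 0 < p → ∀ c : ℂ,
        ‖z k - w‖ ≤ (1 + 2 ^ 29 * (n : ℝ) ^ (-(1 / 6) : ℝ)) * (n : ℝ) ^ (max 0 (1 / p - 1)) *
          ((1 / (n : ℝ)) * ∑ j : Fin n, ‖z j - c‖ ^ p) ^ (1 / p)) ∧
    -- (2) its constant tends to one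
    Tendsto (fun n : ℕ => 1 + 2 ^ 29 * (n : ℝ) ^ (-(1 / 6) : ℝ)) atTop (𝓝 1) := by
  refine ⟨?_, ?_⟩
  · intro n hn z k
    set F : Polynomial ℂ := ∏ j : Fin n, (Polynomial.X - Polynomial.C (z j)) with hF
    have hdeg : F.natDegree = n := by
      rw [hF, Polynomial.natDegree_prod_of_monic _ _ fun j _ => Polynomial.monic_X_sub_C _]
      simp
    have hroots : F.roots = Finset.univ.val.map z := by
      have h1 : (∏ j : Fin n, (Polynomial.X - Polynomial.C (z j))) =
          ((Finset.univ.val.map z).map fun a => Polynomial.X - Polynomial.C a).prod := by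
        rw [Multiset.map_map]
        rfl
      rw [hF, h1, Polynomial.roots_multiset_prod_X_sub_C]
    have hroot : F.IsRoot (z k) := by
      rw [hF, Polynomial.IsRoot, Polynomial.eval_prod]
      exact Finset.prod_eq_zero (Finset.mem_univ k) (by simp)
    obtain ⟨w, hw, hle⟩ := dist_bound (by omega : 2 ≤ F.natDegree) hroot
    refine ⟨w, hw, fun p hp c => (hle c).trans ?_⟩
    rw [hdeg, hroots, Multiset.map_map, mul_assoc]
    have h0 : (0:ℝ) ≤ 1 + 2 ^ 29 * (n : ℝ) ^ (-(1 / 6) : ℝ) := by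
      have : 0 ≤ (n : ℝ) ^ (-(1 / 6) : ℝ) := Real.rpow_nonneg (Nat.cast_nonneg n) _
      linarith
    refine mul_le_mul_of_nonneg_left ?_ h0
    have h1 := mean_le_all (by omega : 0 < n) (fun j => ‖z j - c‖) (fun j => norm_nonneg _) hp
    rw [one_div_mul_eq_div] at h1
    exact h1
  · have h1 : Tendsto (fun n : ℕ => (n : ℝ) ^ (-(1 / 6) : ℝ)) atTop (𝓝 0) :=
      (tendsto_rpow_neg_atTop (by norm_num : (0:ℝ) < 1 / 6)).comp tendsto_natCast_atTop_atTop
    have h2 := (h1.const_mul (2 ^ 29 : ℝ)).const_add 1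
    simpa using h2

end Pool.Agent.Results.MP_af3a4a_an.UpToFactor
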